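import Pool.Agent.MP_0e6a9f_ag.H19.Spec

/-! The normalized bar complex of the canonical algebra. -/

set_option linter.unusedSectionVars false

open MulOpposite

noncomputable section
namespace FMD.H14
open _root_.FMD.DGR _root_.FMD.Bimod CB

variable {K : Type} [Field K] {ι τ : Type} [Fintype ι] [DecidableEq ι] [Fintype τ] [DecidableEq τ]

section
variable (l : ι → τ → K) (i : ι) (t : τ → K) (b : CB l)

@[simp] lemma ez_ez : ez l * ez l = ez l := by ext <;> simp [ez]
@[simp] lemma ex_ex : ex l i * ex l i = ex l i := by ext <;> simp [ex, Pi.single_apply]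
@[simp] lemma ew_ew : ew l * ew l = ew l := by ext <;> simp [ew]
@[simp] lemma ex_aE : ex l i * aE l i = aE l i := by ext <;> simp [ex, aE, Pi.single_apply]
@[simp] lemma aE_ez : aE l i * ez l = aE l i := by ext <;> simp [ez, aE]
@[simp] lemma ew_aF : ew l * aF l i = aF l i := by ext <;> simp [ew, aF]
@[simp] lemma aF_ex : aF l i * ex l i = aF l i := by ext <;> simp [ex, aF, Pi.single_apply]
@[simp] lemma ew_aT : ew l * aT l t = aT l t := by ext <;> simp [ew, aT]
@[simp] lemma aT_ez : aT l t * ez l = aT l t := by ext <;> simp [ez, aT]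
@[simp] lemma aF_aE : aF l i * aE l i = aT l (l i) := by
  ext <;> simp [aF, aE, aT, Pi.single_apply]

lemma aT_add (t' : τ → K) : aT l (t + t') = aT l t + aT l t' := by ext <;> simp [aT]
lemma aT_smul (c : K) : aT l (c • t) = c • aT l t := by ext <;> simp [aT]
@[simp] lemma aT_zero : aT l 0 = 0 := rfl

/-- The long arrows as a linear map. -/
def aTL : (τ → K) →ₗ[K] CB l where
  toFun := aT l
  map_add' := aT_add l
  map_smul' c t := aT_smul l t c

lemma aT_sum : ∑ j, t j • aT l (Pi.single j 1) = aT l t := by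
  conv_rhs => rw [pi_eq_sum_univ' t]
  exact ((map_sum (aTL l) _ _).trans (by simp only [map_smul]; rfl)).symm

lemma ez_mul : ez l * b = b.z • ez l := by ext <;> simp [ez]

lemma ex_mul : ex l i * b = b.x i • ex l i + b.E i • aE l i := by
  ext <;> simp [ex, aE, Pi.single_apply] <;> split_ifs with h <;> simp [h]

/-- The arrows into `w` as a linear map. -/
def aFL : (ι → K) →ₗ[K] CB l where
  toFun f := ⟨0, 0, 0, 0, f, 0⟩
  map_add' _ _ := by ext <;> simp
  map_smul' _ _ := by ext <;> simp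

lemma ew_mul : ew l * b = b.w • ew l + ∑ i, b.F i • aF l i + ∑ j, b.T j • aT l (Pi.single j 1) := by
  have h : ∑ i, b.F i • aF l i = aFL l b.F := by
    conv_rhs => rw [pi_eq_sum_univ' b.F, map_sum]
    simp only [map_smul]; rfl
  rw [aT_sum, h]
  ext <;> simp [ew, aT, aFL]

end

/-- The generators of the bar complex. -/
inductive Gn (ι τ : Type) | o (a : COb ι) | E (i : ι) | F (i : ι) | T (j : τ) | P (i : ι)
  deriving DecidableEq

namespace Gn

instance : Fintype (Gn ι τ) := Fintype.ofSurjective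
  (fun s : COb ι ⊕ ι ⊕ ι ⊕ τ ⊕ ι => Sum.elim o (Sum.elim E (Sum.elim F (Sum.elim T P))) s) (by
    rintro (a | i | i | j | i)
    exacts [⟨.inl a, rfl⟩, ⟨.inr (.inl i), rfl⟩, ⟨.inr (.inr (.inl i)), rfl⟩,
      ⟨.inr (.inr (.inr (.inl j))), rfl⟩, ⟨.inr (.inr (.inr (.inr i))), rfl⟩])

/-- Target and source. -/
def ob : Gn ι τ → COb ι × COb ι
  | o a => (a, a)
  | E i => (.x i, .z)
  | F i => (.w, .x i)
  | T _ => (.w, .z)
  | P _ => (.w, .z)

/-- The length. -/
def ht : Gn ι τ → ℕ
  | o _ => 0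
  | P _ => 2
  | _ => 1

end Gn

section Dl
variable {R : Type} [Ring R] {l : ι → τ → K} (m : CB l →+ CB l →+ R)

/-- The matrix of the bar differential, over any ring with a left and a right copy. -/
def dl : Matrix (Gn ι τ) (Gn ι τ) R
  | .o _ => 0
  | .E i => Pi.single (.o .z) (m (aE l i) (ez l)) + Pi.single (.o (.x i)) (m (ex l i) (aE l i))
  | .F i => Pi.single (.o (.x i)) (m (aF l i) (ex l i)) + Pi.single (.o .w) (m (ew l) (aF l i))
  | .T j => Pi.single (.o .z) (m (aT l (Pi.single j 1)) (ez l)) +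
      Pi.single (.o .w) (m (ew l) (aT l (Pi.single j 1)))
  | .P i => Pi.single (.E i) (m (aF l i) (ez l)) + Pi.single (.F i) (m (ew l) (aE l i)) +
      ∑ j, Pi.single (.T j) (m (l i j • ew l) (ez l))

variable {U : Type} [AddCommGroup U] (f : Gn ι τ → R →+ U)

/-- The value of a row. -/
def dv : Gn ι τ → U
  | .o _ => 0
  | .E i => f (.o .z) (m (aE l i) (ez l)) + f (.o (.x i)) (m (ex l i) (aE l i))
  | .F i => f (.o (.x i)) (m (aF l i) (ex l i)) + f (.o .w) (m (ew l) (aF l i))
  | .T j => f (.o .z) (m (aT l (Pi.single j 1)) (ez l)) +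
      f (.o .w) (m (ew l) (aT l (Pi.single j 1)))
  | .P i => f (.E i) (m (aF l i) (ez l)) + f (.F i) (m (ew l) (aE l i)) +
      ∑ j, f (.T j) (m (l i j • ew l) (ez l))

lemma sum_dl (g : Gn ι τ) : ∑ k, f k (dl m g k) = dv m f g := by
  have h : ∀ k c, ∑ j, f j (Pi.single (M := fun _ => R) k c j) = f k c := fun k c => by
    rw [Finset.sum_eq_single k (fun j _ hj => by rw [Pi.single_eq_of_ne hj, map_zero]) (by simp),
      Pi.single_eq_same]
  cases g <;> simp only [dl, dv, Pi.add_apply, map_add, Finset.sum_add_distrib, h, Pi.zero_apply,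
    map_zero, Finset.sum_const_zero, Finset.sum_apply, map_sum]
  rw [Finset.sum_comm]
  simp only [h]

lemma dl_map {R' : Type} [Ring R'] (φ : R →+ R') {m' : CB l →+ CB l →+ R'}
    (h : ∀ a b, φ (m a b) = m' a b) (g k : Gn ι τ) : φ (dl m g k) = dl m' g k := by
  have e : ∀ k c j, φ (Pi.single (M := fun _ : Gn ι τ => R) k c j) =
      Pi.single (M := fun _ => R') k (φ c) j :=
    fun k c j => Pi.apply_single (fun _ => φ) (fun _ => map_zero φ) k c j
  cases g <;> simp only [dl, Pi.add_apply, map_add, e, h, Pi.zero_apply, map_zero,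
    Finset.sum_apply, map_sum]

variable [CharP K 2] (hm : ∀ a b a' b', m a b * m a' b' = m (a * a') (b' * b))
include hm

lemma dl_cor (g k : Gn ι τ) :
    m ((Can l).e g.ob.1) ((Can l).e g.ob.2) * dl m g k = dl m g k ∧
    dl m g k * m ((Can l).e k.ob.1) ((Can l).e k.ob.2) = dl m g k ∧
    (g.ht ≠ k.ht + 1 → dl m g k = 0) := by
  let S : Gn ι τ → AddSubgroup R := fun k =>
    { carrier := {r | m ((Can l).e g.ob.1) ((Can l).e g.ob.2) * r = r ∧
        r * m ((Can l).e k.ob.1) ((Can l).e k.ob.2) = r ∧ (g.ht ≠ k.ht + 1 → r = 0)}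
      add_mem' := fun ha hb => ⟨by rw [mul_add, ha.1, hb.1], by rw [add_mul, ha.2.1, hb.2.1],
        fun h => by rw [ha.2.2 h, hb.2.2 h, add_zero]⟩
      zero_mem' := ⟨mul_zero _, zero_mul _, fun _ => rfl⟩
      neg_mem' := fun ha => ⟨by rw [mul_neg, ha.1], by rw [neg_mul, ha.2.1],
        fun h => by rw [ha.2.2 h, neg_zero]⟩ }
  have h : ∀ j c, c ∈ S j → Pi.single (M := fun _ => R) j c k ∈ S k := fun j c hc => by
    by_cases e : k = j
    · subst e; rwa [Pi.single_eq_same]
    · rw [Pi.single_eq_of_ne e]; exact zero_mem _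
  change dl m g k ∈ S k
  cases g
  · exact zero_mem _
  · exact add_mem (h _ _ (by simp [S, hm, Gn.ob, Gn.ht])) (h _ _ (by simp [S, hm, Gn.ob, Gn.ht]))
  · exact add_mem (h _ _ (by simp [S, hm, Gn.ob, Gn.ht])) (h _ _ (by simp [S, hm, Gn.ob, Gn.ht]))
  · exact add_mem (h _ _ (by simp [S, hm, Gn.ob, Gn.ht])) (h _ _ (by simp [S, hm, Gn.ob, Gn.ht]))
  · simp only [dl, Pi.add_apply, Finset.sum_apply]
    exact add_mem (add_mem (h _ _ (by simp [S, hm, Gn.ob, Gn.ht]))
      (h _ _ (by simp [S, hm, Gn.ob, Gn.ht])))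
      (sum_mem fun j _ => h _ _ (by simp [S, hm, Gn.ob, Gn.ht]))

/-- The square of the matrix. -/
def dsq : Matrix (Gn ι τ) (Gn ι τ) R
  | .P i => Pi.single (.o .w) (∑ j, (m (ew l) (l i j • aT l (Pi.single j 1)) +
      m (l i j • ew l) (aT l (Pi.single j 1))))
  | _ => 0

lemma dl_sq (two : ∀ r : R, r + r = 0) : dl m * dl m = dsq m := by
  ext g k
  have := sum_dl m (fun j => AddMonoidHom.mulRight (dl m j k)) g
  simp only [AddMonoidHom.coe_mulRight] at this
  rw [Matrix.mul_apply, this]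
  cases g
  case P i =>
    have e : ∀ c j d, c * Pi.single (M := fun _ => R) j d k =
        Pi.single (M := fun _ : Gn ι τ => R) j (c * d) k :=
      fun c j d => Pi.apply_single (fun _ => (c * ·)) (fun _ => mul_zero c) j d k
    let s : Gn ι τ → R →+ R := fun j => (Pi.evalAddMonoidHom (fun _ => R) k).comp
      (AddMonoidHom.single (fun _ : Gn ι τ => R) j)
    have hs : ∀ j c, Pi.single (M := fun _ => R) j c k = s j c := fun _ _ => rfl
    simp only [dv, dsq, dl, AddMonoidHom.coe_mulRight, Pi.add_apply, mul_add, e, hm]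
    simp only [hs, aF_aE, ez_ez, aF_ex, aE_ez, ew_aF, ex_aE, ew_ew, smul_mul_assoc, ew_aT, aT_ez,
      ← aT_sum l (l i), map_sum, map_add, AddMonoidHom.finsetSum_apply, Finset.sum_add_distrib]
    have e1 := two (∑ j, s (.o .z) (m (l i j • aT l (Pi.single j 1)) (ez l)))
    have e2 := two (s (.o (.x i)) (m (aF l i) (aE l i)))
    linear_combination (norm := abel) e1 + e2
  all_goals simp [dv, dsq, dl]

end Dl

end FMD.H14
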