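import Pool.Agent.MP_0e6a9f_ag.H14.Res

/-! The Hochschild complex of the canonical algebra of type `(2, 2, 2, 2; p)`; row CP. -/

set_option linter.unusedSectionVars false

open MulOpposite

noncomputable section
namespace FMD.H14
open _root_.FMD.DGR _root_.FMD.Bimod CB

section
variable {K : Type} [Field K] {ι τ : Type} [Fintype ι] [DecidableEq ι] [Fintype τ] [DecidableEq τ]
  [CharP K 2] (l : ι → τ → K)

/-- The cochain with given coordinates. -/
def co (c : COb ι → K) (α β : ι → K) (M : τ → τ → K) (u : ι → τ → K) : Gn ι τ → CB l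
  | .o s => c s • (Can l).e s
  | .E i => α i • aE l i
  | .F i => β i • aF l i
  | .T j => aT l (M j)
  | .P i => aT l (u i)

lemma co_add (c c' : COb ι → K) (α α' β β' : ι → K) (M M' : τ → τ → K) (u u' : ι → τ → K) :
    co l c α β M u + co l c' α' β' M' u' = co l (c + c') (α + α') (β + β') (M + M') (u + u') := by
  funext g
  cases g <;> simp [co, add_smul, aT_add]

lemma co_smul (a : K) (c : COb ι → K) (α β : ι → K) (M : τ → τ → K) (u : ι → τ → K) :
    a • co l c α β M u = co l (a • c) (a • α) (a • β) (a • M) (a • u) := by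
  funext g
  cases g <;> simp [co, mul_smul, aT_smul]

lemma bhD_co (c : COb ι → K) (α β : ι → K) (M : τ → τ → K) (u : ι → τ → K) :
    bhD (bar l) (Can l).self (co l c α β M u) = co l 0 (fun i => c .z + c (.x i))
      (fun i => c (.x i) + c .w) (fun j => (c .z + c .w) • Pi.single j 1)
      fun i => (α i + β i) • l i + ∑ j, l i j • M j := by
  funext g
  rw [bhD_bar]
  cases g <;> simp only [co, smul_mul_assoc, mul_smul_comm, ez_ez, aE_ez, ex_aE, add_smul, ex_ex,
    aF_ex, ew_aF, aT_ez, ew_aT, aF_aE, aT_add, aT_smul, Pi.zero_apply, zero_smul]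
  congr 1
  exact ((map_sum (aTL l) _ _).trans (by simp only [map_smul]; rfl)).symm

variable {l} in
lemma bh_zero {n : ℤ} {m : Gn ι τ → CB l} (hm : m ∈ bhGr (bar l) (Can l).self n) (g : Gn ι τ)
    (h : n ≠ g.ht) : m g = 0 := (can_deg0 l).zero (hm g).1 (by dsimp only; omega)

variable {l} in
lemma eq_co {n : ℤ} {m : Gn ι τ → CB l} (hm : m ∈ bhGr (bar l) (Can l).self n) :
    ∃ c α β M u, m = co l c α β M u ∧ (n ≠ 0 → c = 0) ∧ (n ≠ 1 → α = 0 ∧ β = 0 ∧ M = 0) ∧
      (n ≠ 2 → u = 0) := by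
  refine ⟨fun s => match s with
      | .z => (m (.o .z)).z
      | .x i => (m (.o (.x i))).x i
      | .w => (m (.o .w)).w, fun i => (m (.E i)).E i, fun i => (m (.F i)).F i,
    fun j => (m (.T j)).T, fun i => (m (.P i)).T, funext fun g => ?_, fun h => ?_,
    fun h => ⟨?_, ?_, ?_⟩, fun h => ?_⟩
  · obtain ⟨-, h1, h2⟩ := (Can l).mem_self_cor.1 (hm g)
    have h : m g = (Can l).e g.ob.1 * m g * (Can l).e g.ob.2 := by rw [h1, h2]
    refine h.trans ?_
    rcases g with (_ | i | _) | i | i | j | i <;> ext <;>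
      simp [co, Gn.ob, ez, ex, ew, aE, aF, aT, Pi.single_apply] <;> split_ifs with e <;> simp [e]
  · funext s
    rcases s with _ | i | _ <;> simp [bh_zero hm (.o _) h]
  · funext i; simp [bh_zero hm (.E i) h]
  · funext i; simp [bh_zero hm (.F i) h]
  · funext i; simp [bh_zero hm (.T i) h]
  · funext i; simp [bh_zero hm (.P i) h]

lemma co_mem {n : ℤ} {c : COb ι → K} {α β : ι → K} {M : τ → τ → K} {u : ι → τ → K}
    (h0 : n ≠ 0 → c = 0) (h1 : n ≠ 1 → α = 0 ∧ β = 0 ∧ M = 0) (h2 : n ≠ 2 → u = 0) :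
    co l c α β M u ∈ bhGr (bar l) (Can l).self n := by
  intro g
  refine (Can l).mem_self_cor.2 ⟨?_, ?_, ?_⟩
  · by_cases h : n = g.ht
    · exact DGR.mem_cast _ ((can_deg0 l).mem _) (by dsimp only; omega)
    · have : co l c α β M u g = 0 := by
        cases g
        exacts [by simp [co, h0 h], by simp [co, h1 h], by simp [co, h1 h], by simp [co, h1 h],
          by simp [co, h2 h]]
      rw [this]; exact zero_mem _
  all_goals rcases g with (_ | i | _) | i | i | j | i <;> simp [co, Gn.ob]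

lemma au_eq : au l = co l 1 0 0 0 0 := by
  funext g
  cases g <;> simp [au, co]

end

variable {K : Type} [Field K] [CharP K 2] (p : K)

/-- The homotopy on cochains. -/
def hh : (Gn (Fin 4) (Fin 2) → CB (lp p)) →ₗ[K] (Gn (Fin 4) (Fin 2) → CB (lp p)) where
  toFun m := co (lp p) (fun s => match s with
      | .z => 0
      | .x i => (m (.E i)).E i
      | .w => (m (.E 0)).E 0 + (m (.F 0)).F 0) 0
    ![0, (m (.P 1)).T 1 + ((m (.P 0)).T 0 + (m (.P 0)).T 1 + (m (.P 1)).T 0 + (m (.P 2)).T 0 +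
        (m (.P 2)).T 1), (m (.P 2)).T 0 + (m (.P 1)).T 0 + (m (.P 0)).T 0,
      (m (.P 3)).T 0 + p * (m (.P 1)).T 0 + (m (.P 0)).T 0]
    ![(m (.P 0)).T, ![(m (.P 1)).T 0, (m (.P 0)).T 0 + (m (.P 0)).T 1 + (m (.P 1)).T 0 +
      (m (.P 2)).T 0 + (m (.P 2)).T 1]] 0
  map_add' a b := by
    rw [co_add]
    congr 1
    · funext s; rcases s with _ | i | _ <;> simp; ring
    · simp
    · ext i; fin_cases i <;> simp <;> ring
    · ext i j; fin_cases i <;> fin_cases j <;> simp; ring
    · simp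
  map_smul' c a := by
    rw [RingHom.id_apply, co_smul]
    congr 1
    · funext s; rcases s with _ | i | _ <;> simp; ring
    · simp
    · ext i; fin_cases i <;> simp <;> ring
    · ext i j; fin_cases i <;> fin_cases j <;> simp; ring
    · simp

lemma hh_co (c : COb (Fin 4) → K) (α β : Fin 4 → K) (M : Fin 2 → Fin 2 → K)
    (u : Fin 4 → Fin 2 → K) : hh p (co (lp p) c α β M u) = co (lp p) (fun s => match s with
      | .z => 0
      | .x i => α i
      | .w => α 0 + β 0) 0
    ![0, u 1 1 + (u 0 0 + u 0 1 + u 1 0 + u 2 0 + u 2 1), u 2 0 + u 1 0 + u 0 0,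
      u 3 0 + p * u 1 0 + u 0 0] ![u 0, ![u 1 0, u 0 0 + u 0 1 + u 1 0 + u 2 0 + u 2 1]] 0 := by
  simp [hh, co, aE, aF, aT]

/-- The functional that detects the second cohomology. -/
def chi : (Gn (Fin 4) (Fin 2) → CB (lp p)) →ₗ[K] K where
  toFun m := (1 + p) * (m (.P 0)).T 1 + (p + p ^ 2) * (m (.P 1)).T 0 +
    p * ((m (.P 2)).T 0 + (m (.P 2)).T 1) + (p * (m (.P 3)).T 0 + (m (.P 3)).T 1)
  map_add' a b := by simp; ring
  map_smul' c a := by simp; ring

lemma chi_co (c : COb (Fin 4) → K) (α β : Fin 4 → K) (M : Fin 2 → Fin 2 → K)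
    (u : Fin 4 → Fin 2 → K) : chi p (co (lp p) c α β M u) =
      (1 + p) * u 0 1 + (p + p ^ 2) * u 1 0 + p * (u 2 0 + u 2 1) + (p * u 3 0 + u 3 1) := rfl

/-- The derivative of the four lines with respect to `p`. -/
def lp' : Fin 4 → Fin 2 → K := ![0, 0, 0, ![0, 1]]

/-- The data for one factor. -/
def pack : Pack K (Cp p) p where
  R := barRes (lp p)
  neg g := by dsimp only; omega
  low g := by cases g <;> simp [Gn.ht]
  k := kap (lp p) lp'
  k_mem := kap_mem _ _
  lift D := ⟨barLift (lp p) D (D p) lp' fun i j => by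
    fin_cases i <;> fin_cases j <;> simp [lp, lp']⟩
  H := hh p
  H_mem n m hm := by
    obtain ⟨c, α, β, M, u, rfl, -, h1, h2⟩ := eq_co hm
    rw [hh_co]
    refine co_mem _ (fun h => ?_) (fun h => ?_) fun _ => rfl
    · obtain ⟨rfl, rfl, -⟩ := h1 (by omega)
      funext s; rcases s with _ | i | _ <;> simp
    · obtain rfl := h2 (by omega)
      simp
  H_one m hm := by
    obtain ⟨c, α, β, M, u, rfl, h0, -, h2⟩ := eq_co hm
    obtain rfl := h0 (by omega)
    obtain rfl := h2 (by omega)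
    have two : (2 : K) = 0 := CharTwo.two_eq_zero
    clear hm
    rw [hh_co, bhD_co, bhD_co, hh_co, co_add]
    congr 1
    · funext s; rcases s with _ | i | _ <;> simp
    · ext i; simp
    · ext i; fin_cases i <;> simp [lp] <;> grind
    · ext i j; fin_cases i <;> fin_cases j <;> simp [lp, Matrix.vecHead, Matrix.vecTail] <;> grind
    · ext i j; fin_cases i <;> fin_cases j <;> simp
  H_zero m hm := by
    obtain ⟨c, α, β, M, u, rfl, -, h1, h2⟩ := eq_co hm
    obtain ⟨rfl, rfl, rfl⟩ := h1 (by omega)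
    obtain rfl := h2 (by omega)
    have two : (2 : K) = 0 := CharTwo.two_eq_zero
    clear hm
    refine ⟨c .z, ?_⟩
    rw [bhD_co, hh_co, co_add, show (barRes (lp p)).a = _ from au_eq _, co_smul]
    congr 1
    · funext s; rcases s with _ | i | _ <;> simp <;> grind
    all_goals simp
  χ := chi p
  χ_d m hm := by
    obtain ⟨c, α, β, M, u, rfl, -⟩ := eq_co hm
    have two : (2 : K) = 0 := CharTwo.two_eq_zero
    clear hm
    rw [bhD_co, chi_co]
    simp [lp]
    grind
  χ_k := by
    have h : ∀ i, (barRes (lp p)).aug (kap (lp p) lp' (.P i)) = aT (lp p) (lp' i) := fun i => by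
      have := Bar.aug_lr (l := lp p) (.o .w) 1 (aT (lp p) (lp' i))
      rw [one_smul, one_mul] at this
      exact this.trans (ew_aT _ _)
    simp only [chi, LinearMap.coe_mk, AddHom.coe_mk, h]
    simp [lp', aT]

theorem _root_.FMD.cp : CpStmt := fun _ _ _ p _ _ => ⟨pack p⟩

end FMD.H14
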