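import Pool.Agent.MP_0e6a9f_ag.H14.Bar

/-! The bar complex resolves the diagonal of the canonical algebra and lifts along derivations. -/

set_option linter.unusedSectionVars false

open MulOpposite

noncomputable section
namespace FMD.H14
open _root_.FMD.DGR _root_.FMD.Bimod CB

variable {K : Type} [Field K] {ι τ : Type} [Fintype ι] [DecidableEq ι] [Fintype τ] [DecidableEq τ]
  [CharP K 2] (l : ι → τ → K)

instance (M : Bimod (Can l) (Can l)) : Module (CB l) M.H := M.modL
instance (M : Bimod (Can l) (Can l)) : Module (CB l)ᵐᵒᵖ M.H := M.modR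
instance (M : Bimod (Can l) (Can l)) : SMulCommClass (CB l) (CB l)ᵐᵒᵖ M.H := M.comm
instance (M : Bimod (Can l) (Can l)) : SMulCommClass (CB l)ᵐᵒᵖ (CB l) M.H := M.comm.symm
instance (y : Tw (env K (Can l) (Can l))) : IsScalarTower K (CB l) (Fr y).H :=
  Fr.instIsScalarTowerBH (C := Can l) (C' := Can l)
instance (y : Tw (env K (Can l) (Can l))) : IsScalarTower K (CB l)ᵐᵒᵖ (Fr y).H :=
  Fr.instIsScalarTowerMulOppositeBH (C := Can l) (C' := Can l)
instance : (Can l).op.KL K := DGR.instKLOp K (Can l)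

/-- `a ⊗ b` as a biadditive map. -/
def emH : CB l →+ CB l →+ (env K (Can l) (Can l)).B :=
  AddMonoidHom.mk' (fun a => AddMonoidHom.mk' (em K (Can l) (Can l) a) (em_add (C := Can l) (C' := Can l) a))
    fun a a' => AddMonoidHom.ext fun b => add_em (C := Can l) (C' := Can l) a a' b

lemma emH_apply (a b : CB l) : emH l a b = em K (Can l) (Can l) a b := rfl

lemma emH_mul (a b a' b' : CB l) : emH l a b * emH l a' b' = emH l (a * a') (b' * b) :=
  em_mul (C := Can l) (C' := Can l) a a' b b'

lemma env_deg0 : Deg0 (env K (Can l) (Can l)) := Deg0.tens (C' := (Can l).op) (can_deg0 l) (can_deg0 l).op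

/-- The normalized bar complex. -/
@[reducible] def bar : Tw (env K (Can l) (Can l)) where
  I := Gn ι τ
  ob := Gn.ob
  deg g := -g.ht
  ht := Gn.ht
  δ := dl (emH l)
  δ_mem g k := by
    obtain ⟨h1, h2, h3⟩ := dl_cor (emH l) (emH_mul l) g k
    refine (env K (Can l) (Can l)).mem_self_cor.2 ⟨?_, h1, h2⟩
    by_cases h : g.ht = k.ht + 1
    · exact DGR.mem_cast _ ((env_deg0 l).mem _) (by omega)
    · rw [h3 h]; exact zero_mem _
  δ_ht g k h := (dl_cor (emH l) (emH_mul l) g k).2.2 (by omega)
  mc := by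
    rw [dl_sq (emH l) (emH_mul l) (env K (Can l) (Can l)).two]
    ext g k
    rw [Matrix.map_apply, (env_deg0 l).d]
    cases g <;> simp only [dsq, Pi.zero_apply]
    rw [Finset.sum_eq_zero, Pi.single_zero, Pi.zero_apply]
    intro j _
    rw [emH_apply, emH_apply, em_smul, smul_em, (env K (Can l) (Can l)).two]

lemma sum_act (M : Bimod (Can l) (Can l)) [Module K M.H] [IsScalarTower K (CB l) M.H]
    [IsScalarTower K (CB l)ᵐᵒᵖ M.H] (m : Gn ι τ → M.H) (g : Gn ι τ) :
    ∑ k, M.act K ((bar l).δ g k) (m k) = dv (emH l) (fun k =>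
      ((LinearMap.applyₗ (m k)).comp (M.act K).toLinearMap).toAddMonoidHom) g :=
  sum_dl (emH l) (fun k => ((LinearMap.applyₗ (m k)).comp (M.act K).toLinearMap).toAddMonoidHom) g

/-- The bar differential on cochains. -/
lemma bhD_bar (m : Gn ι τ → CB l) (g : Gn ι τ) : bhD (bar l) (Can l).self m g = match g with
    | .o _ => 0
    | .E i => aE l i * (m (.o .z) * ez l) + ex l i * (m (.o (.x i)) * aE l i)
    | .F i => aF l i * (m (.o (.x i)) * ex l i) + ew l * (m (.o .w) * aF l i)
    | .T j => aT l (Pi.single j 1) * (m (.o .z) * ez l) + ew l * (m (.o .w) * aT l (Pi.single j 1))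
    | .P i => aF l i * (m (.E i) * ez l) + ew l * (m (.F i) * aE l i) +
        ∑ j, (l i j • ew l) * (m (.T j) * ez l) := by
  rw [bhD_apply, sum_act, (can_deg0 l).d, zero_add]
  cases g <;> rfl

/-- The augmentation on the generators. -/
def au : Gn ι τ → CB l
  | .o a => (Can l).e a
  | _ => 0

lemma au_mem : au l ∈ bhGr (bar l) (Can l).self 0 := by
  intro g
  cases g
  · exact cor_cast ((Can l).e_mem_cor _) (by simp [Gn.ht])
  all_goals exact zero_mem _

lemma au_d : bhD (bar l) (Can l).self (au l) = 0 := by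
  funext g
  rw [bhD_bar]
  cases g <;> simp [au, (Can l).two]

namespace Bar
variable {l}

/-- The generators. -/
abbrev γ (g : Gn ι τ) : (Fr (bar l)).H := Fr.gen (bar l) g

lemma γ_l (g : Gn ι τ) : (Can l).e g.ob.1 • γ (l := l) g = γ g := cor_l (Fr.gen_mem (y := bar _) g)

lemma γ_r (g : Gn ι τ) : op ((Can l).e g.ob.2) • γ (l := l) g = γ g :=
  cor_r (Fr.gen_mem (y := bar _) g)

lemma r_γ (g : Gn ι τ) (b : CB l) : op b • γ (l := l) g = op ((Can l).e g.ob.2 * b) • γ g := by
  rw [op_mul, mul_smul, γ_r]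

lemma l_γ (g : Gn ι τ) (b : CB l) : b • γ (l := l) g = (b * (Can l).e g.ob.1) • γ g := by
  rw [mul_smul, γ_l]

lemma d_γ (g : Gn ι τ) : (Fr (bar l)).d (γ g) = match g with
    | .o _ => 0
    | .E i => aE l i • γ (.o .z) + op (aE l i) • γ (.o (.x i))
    | .F i => aF l i • γ (.o (.x i)) + op (aF l i) • γ (.o .w)
    | .T j => aT l (Pi.single j 1) • γ (.o .z) + op (aT l (Pi.single j 1)) • γ (.o .w)
    | .P i => aF l i • γ (.E i) + op (aE l i) • γ (.F i) + ∑ j, l i j • γ (.T j) := by
  have h : ∀ (g : Gn ι τ) (b : CB l), (Can l).e g.ob.1 • op b • γ (l := l) g = op b • γ g :=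
    fun g b => by rw [smul_comm, γ_l]
  have h' : ∀ (g : Gn ι τ) (b : CB l), b • op ((Can l).e g.ob.2) • γ (l := l) g = b • γ g :=
    fun g b => by rw [γ_r]
  rw [Fr.d_gen, sum_act]
  cases g
  · rfl
  · exact congrArg₂ (· + ·) (h' (.o .z) _) (h (.o (.x _)) _)
  · exact congrArg₂ (· + ·) (h' (.o (.x _)) _) (h (.o .w) _)
  · exact congrArg₂ (· + ·) (h' (.o .z) _) (h (.o .w) _)
  · refine congrArg₂ (· + ·) (congrArg₂ (· + ·) (h' (.E _) _) (h (.F _) _))
      (Finset.sum_congr rfl fun j _ => ?_)
    exact (smul_assoc _ _ _).trans (congrArg _ ((h (.T j) _).trans (γ_r (.T j))))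

variable (l) in
/-- The contraction on `γ g · b`. -/
def hg : Gn ι τ → CB l → (Fr (bar l)).H
  | .o (.x i), b => b.E i • γ (.E i)
  | .o .w, b => ∑ i, b.F i • γ (.F i) + ∑ j, b.T j • γ (.T j)
  | .F i, b => b.E i • γ (.P i)
  | _, _ => 0

variable (l) in
/-- The same as a linear map. -/
def hgL (g : Gn ι τ) : CB l →ₗ[K] (Fr (bar l)).H where
  toFun := hg l g
  map_add' a b := by
    rcases g with (_ | i | _) | i | i | j | i <;>
      simp only [hg, add_smul, Finset.sum_add_distrib, add_zero, add_E, add_F, add_T, Pi.add_apply]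
    abel
  map_smul' c a := by
    rcases g with (_ | i | _) | i | i | j | i <;>
      simp only [hg, Finset.smul_sum, smul_smul, smul_zero, smul_add, smul_E, smul_F, smul_T,
        Pi.smul_apply, smul_eq_mul, RingHom.id_apply]

lemma hg_mem (g : Gn ι τ) (b : CB l) : hg l g b ∈ (Fr (bar l)).gr (-g.ht - 1) := by
  have h : ∀ (c : K) (k : Gn ι τ), c • γ (l := l) k ∈ (Fr (bar l)).gr (-k.ht) :=
    fun c k => Bimod.smul_mem c (Fr.gen_mem (y := bar l) k).1
  rcases g with (_ | i | _) | i | i | j | i
  exacts [zero_mem _, h _ (.E i), add_mem (sum_mem fun i _ => h _ (.F i))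
    (sum_mem fun j _ => h _ (.T j)), zero_mem _, h _ (.P i), zero_mem _, zero_mem _]

lemma hg_e (g : Gn ι τ) (b : CB l) :
    (Can l).e g.ob.1 • hg l g ((Can l).e g.ob.2 * b) = hg l g b := by
  have h : ∀ (c : K) (k : Gn ι τ), (Can l).e k.ob.1 • c • γ (l := l) k = c • γ k :=
    fun c k => by rw [smul_comm, γ_l]
  rcases g with (_ | i | _) | i | i | j | i
  · exact smul_zero _
  · exact (h _ (.E i)).trans (by simp [hg, Gn.ob, ex])
  · simp only [hg, smul_add, Finset.smul_sum]
    exact congrArg₂ (· + ·)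
      (Finset.sum_congr rfl fun i _ => (h _ (.F i)).trans (by simp [Gn.ob, ew]))
      (Finset.sum_congr rfl fun j _ => (h _ (.T j)).trans (by simp [Gn.ob, ew]))
  · exact smul_zero _
  · exact (h _ (.P i)).trans (by simp [hg, Gn.ob, ex])
  · exact smul_zero _
  · exact smul_zero _

variable (l) in
/-- The component of the contraction at one generator. -/
def hcg (g : Gn ι τ) : (env K (Can l) (Can l)).B →ₗ[K] (Fr (bar l)).H :=
  elift (C := Can l) (C' := Can l)
    ((Algebra.lsmul K K (Fr (bar l)).H (A := CB l)).toLinearMap.compl₂ (hgL l g))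

lemma hcg_em (g : Gn ι τ) (a b : CB l) : hcg l g (em K (Can l) (Can l) a b) = a • hg l g b := rfl

variable (l) in
/-- The contraction. -/
def hc : (Fr (bar l)).H →ₗ[K] (Fr (bar l)).H :=
  ∑ g, (hcg l g).comp ((LinearMap.proj g).comp (Fr.val (bar l)))

lemma hc_apply (v : (Fr (bar l)).H) : hc l v = ∑ g, hcg l g (Fr.val (bar l) v g) := by
  simp [hc]

lemma hc_γ (g : Gn ι τ) (a b : CB l) : hc l (a • op b • γ g) = a • hg l g b := by
  rw [hc_apply, show a • op b • γ g = (Fr (bar l)).act K (em K (Can l) (Can l) a b) (γ g) from rfl,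
    Finset.sum_eq_single g
    (fun k _ hk => by rw [Fr.val_act, Fr.val_gen, if_neg hk, mul_zero, map_zero]) (by simp),
    Fr.val_act, Fr.val_gen, if_pos rfl, env_e', em_mul, hcg_em, mul_smul]
  exact congrArg _ (hg_e g b)

lemma hc_mem {n : ℤ} {v : (Fr (bar l)).H} (hv : v ∈ (Fr (bar l)).gr n) :
    hc l v ∈ (Fr (bar l)).gr (n - 1) := by
  rw [hc_apply]
  refine sum_mem fun g _ => ?_
  by_cases h : n = -g.ht
  · subst h
    induction Fr.val (bar l) v g using env_ind with
    | zero => rw [map_zero]; exact zero_mem _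
    | add x y hx hy => rw [map_add]; exact add_mem hx hy
    | em a b =>
      exact (Fr (bar l)).mem_cast ((Fr (bar l)).l_mem ((can_deg0 l).mem a) (hg_mem g b))
        (zero_add _)
  · rw [(env_deg0 l).zero (Fr.mem_gr.1 hv g) (sub_ne_zero.2 h), map_zero]; exact zero_mem _

variable (l) in
/-- The section of the augmentation. -/
def sec (a : CB l) : (Fr (bar l)).H := a • ∑ s : COb ι, γ (l := l) (.o s)

lemma sec_e (a : CB l) (s : COb ι) : sec l (a * (Can l).e s) = (a * (Can l).e s) • γ (l := l) (.o s) := by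
  rw [sec, Finset.smul_sum, Finset.sum_eq_single s (fun s' _ h => ?_) (by simp)]
  rw [l_γ, mul_assoc]
  change (a * ((Can l).e s * (Can l).e s')) • _ = _
  rw [(Can l).e_mul, if_neg h.symm, mul_zero, zero_smul]

lemma d_lr (a b : CB l) (v : (Fr (bar l)).H) :
    (Fr (bar l)).d (a • op b • v) = a • op b • (Fr (bar l)).d v := by
  rw [(Fr (bar l)).d_l, (Fr (bar l)).d_r, (can_deg0 l).d, (can_deg0 l).d, zero_smul, op_zero,
    zero_smul, zero_add, add_zero]

lemma d_l (a : CB l) (v : (Fr (bar l)).H) : (Fr (bar l)).d (a • v) = a • (Fr (bar l)).d v := by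
  simpa using d_lr a 1 v

lemma aug_lr (g : Gn ι τ) (a b : CB l) :
    lift (bar l) (Can l).self (au l) (a • op b • γ (l := l) g) = a * (au l g * b) := by
  rw [(lift_isLin _).l, (lift_isLin _).r, lift_gen (au_mem l)]; rfl

lemma key (g : Gn ι τ) (a b : CB l) :
    (Fr (bar l)).d (a • hg l g b) + hc l (a • op b • (Fr (bar l)).d (γ g)) =
      a • op b • γ g + sec l (a * (au l g * b)) := by
  have two := (Fr (bar l)).two
  have dK := fun (c : K) v => (Fr (bar l)).d_smul c v
  have h1 : ∀ (c : CB l) g, hc l (a • op b • c • γ g) = a • c • hg l g b := fun c g => by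
    rw [← smul_comm c, smul_smul, hc_γ, mul_smul]
  have h2 : ∀ (c : CB l) g, hc l (a • op b • op c • γ g) = a • hg l g (c * b) := fun c g => by
    rw [smul_smul (op b), ← op_mul, hc_γ]
  have h3 : ∀ (c : K) g, hc l (a • op b • c • γ g) = a • c • hg l g b := fun c g => by
    rw [smul_comm (op b), smul_comm a, map_smul, hc_γ, smul_comm]
  have s1 : sec l (a * (au l g * b)) = a • sec l (au l g * b) := mul_smul _ _ _
  have sz : ∀ (c : K) (u : CB l) s, u * (Can l).e s = u → sec l (c • u) = c • u • γ (.o s) :=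
    fun c u s hu => by rw [← hu, ← smul_mul_assoc, sec_e, smul_mul_assoc, smul_assoc]
  have sa : ∀ u v, sec l (u + v) = sec l u + sec l v := fun u v => add_smul _ _ _
  have ss : ∀ {α : Type} [Fintype α] (u : α → CB l), sec l (∑ i, u i) = ∑ i, sec l (u i) :=
    fun u => Finset.sum_smul
  have s0 : sec l 0 = 0 := zero_smul _ _
  have e1 : ∀ i, (aE l i * b).E i = b.z := fun i => by simp [aE]
  have e2 : ∀ i x, (aF l i * b).F x = if x = i then b.x i else 0 := fun i x => by
    simp [aF, Pi.single_apply]; split_ifs with h <;> simp [h]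
  have e3 : ∀ i x, (aF l i * b).T x = b.E i * l i x := fun i x => by simp [aF, Pi.single_apply]
  have e4 : ∀ t x, (aT l t * b).F x = 0 := fun i x => by simp [aT]
  have e5 : ∀ j x, (aT l (Pi.single j 1) * b).T x = if x = j then b.z else 0 := fun i x => by
    simp [aT, Pi.single_apply]
  rw [d_γ, d_l, s1, r_γ g b, ← smul_add]
  rcases g with (_ | i | _) | i | i | j | i <;>
    simp only [smul_add, map_add, h1, h2, h3, smul_zero, map_zero, Finset.smul_sum, map_sum,
      add_zero, zero_add, hg, au, Gn.ob, ez_mul, ex_mul, ew_mul, zero_mul, s0, dK, d_γ, op_add,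
      op_smul, add_smul, smul_assoc, Finset.op_sum, Finset.sum_smul, sa, ss]
  · rw [sz _ (ez l) .z (ez_ez l),
      show op (ez l) • γ (l := l) (.o .z) = _ from γ_r (l := l) (.o .z),
      show ez l • γ (l := l) (.o .z) = _ from γ_l (l := l) (.o .z), two]
  · rw [sz _ (ex l i) (.x i) (ex_ex l i), sz _ (aE l i) .z (aE_ez l i),
      show op (ex l i) • γ (l := l) (.o (.x i)) = _ from γ_r (l := l) (.o (.x i)),
      show ex l i • γ (l := l) (.o (.x i)) = _ from γ_l (l := l) (.o (.x i))]
    linear_combination (norm := abel) -two (a • b.x i • γ (.o (.x i)))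
  · simp only [sz _ (ew l) .w (ew_ew l), fun i => sz (b.F i) (aF l i) (.x i) (aF_ex l i),
      fun j => sz (b.T j) (aT l (Pi.single j 1)) .z (aT_ez l _), Finset.sum_add_distrib]
    rw [show op (ew l) • γ (l := l) (.o .w) = _ from γ_r (l := l) (.o .w),
      show ew l • γ (l := l) (.o .w) = _ from γ_l (l := l) (.o .w)]
    linear_combination (norm := abel) -two (a • b.w • γ (.o .w))
  · rw [show op (ez l) • γ (l := l) (.E i) = _ from γ_r (l := l) (.E i), e1]
  · simp only [e2, e3, mul_smul, ite_smul, zero_smul, smul_ite, smul_zero, Finset.sum_ite_eq',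
      Finset.mem_univ, if_true, smul_comm (aF l i) (b.E i)]
    rw [show op (ex l i) • γ (l := l) (.F i) = _ from γ_r (l := l) (.F i)]
    linear_combination (norm := abel) two (a • b.E i • aF l i • γ (.E i)) +
      two (∑ x, a • b.E i • l i x • γ (.T x))
  · simp only [e4, e5, ite_smul, zero_smul, smul_ite, smul_zero, Finset.sum_ite_eq',
      Finset.mem_univ, if_true, Finset.sum_const_zero, zero_add]
    rw [show op (ez l) • γ (l := l) (.T j) = _ from γ_r (l := l) (.T j)]
  · rw [show op (ez l) • γ (l := l) (.P i) = _ from γ_r (l := l) (.P i), e1,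
      Finset.sum_const_zero, add_zero]

lemma contr (v : (Fr (bar l)).H) : (Fr (bar l)).d (hc l v) + hc l ((Fr (bar l)).d v) =
    v + sec l (lift (bar l) (Can l).self (au l) v) := by
  have sa : ∀ u v, sec l (u + v) = sec l u + sec l v := fun u v => add_smul _ _ _
  have s0 : sec l 0 = 0 := zero_smul _ _
  rw [← Fr.sum_gen v]
  refine Finset.sum_induction _ (fun v => (Fr (bar l)).d (hc l v) + hc l ((Fr (bar l)).d v) =
    v + sec l (lift (bar l) (Can l).self (au l) v)) (fun u v hu hv => ?_) (by simp [s0])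
    fun g _ => ?_
  · simp only [map_add, sa]
    linear_combination (norm := abel) hu + hv
  · induction Fr.val (bar l) v g using env_ind with
    | zero => simp [s0]
    | add x y hx hy =>
      simp only [map_add, LinearMap.add_apply, sa]
      linear_combination (norm := abel) hx + hy
    | em a b =>
      have := key g a b
      rw [← hc_γ, ← d_lr, ← aug_lr] at this
      exact this

lemma aug_sec (a : CB l) : lift (bar l) (Can l).self (au l) (sec l a) = a := by
  rw [sec, (lift_isLin _).l, map_sum]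
  simp only [lift_gen (au_mem l), au]
  exact (congrArg (a * ·) (Can l).e_sum).trans (mul_one a)

lemma qis : Cx.Qis (Fr (bar l)).cx (Can l).self.cx (lift (bar l) (Can l).self (au l)) where
  toIsMap := (lift_isHom (au_mem l) (au_d l)).isMap
  surj n w hw _ := by
    refine ⟨sec l w, (Fr (bar l)).mem_cast ((Fr (bar l)).l_mem hw
      (sum_mem fun s _ => (Fr.gen_mem (y := bar l) (.o s)).1)) (add_zero n), ?_, ?_⟩
    · change (Fr (bar l)).d (sec l w) = 0
      simp only [sec, d_l, map_sum, d_γ, Finset.sum_const_zero, smul_zero]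
    · rw [aug_sec, (Can l).two]; exact Cx.Bd.zero n
  inj n z hz h0 := by
    rintro ⟨w, -, h⟩
    have := contr z
    rw [show (Fr (bar l)).d z = 0 from h0, ← h, map_zero, add_zero,
      show sec l ((Can l).self.cx.d w) = 0 from zero_smul _ _, add_zero] at this
    exact ⟨hc l z, hc_mem hz, this⟩

end Bar

/-- The bar resolution. -/
@[reducible] def barRes : Res K (Can l) := ⟨bar l, au l, au_mem l, au_d l, Bar.qis⟩

/-- The cochain `P i ↦ [w] · t i`. -/
def kap (t : ι → τ → K) : Gn ι τ → (Fr (bar l)).H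
  | .P i => op (aT l (t i)) • Bar.γ (.o .w)
  | _ => 0

lemma kap_mem (t : ι → τ → K) : kap l t ∈ bhGr (bar l) (Fr (bar l)) 2 := by
  intro g
  cases g
  case P i =>
    exact cor_cast ((Fr (bar l)).r_mem_cor (m := 0) (a := .z) (b := .w) ((Can l).mem_self_cor.2
      ⟨(can_deg0 l).mem _, ew_aT l _, aT_ez l _⟩) (Fr.gen_mem (y := bar l) (.o .w))) rfl
  all_goals exact zero_mem _

/-- `L a * R b` as a biadditive map. -/
def etH (D : Derivation ℤ K K) : CB l →+ CB l →+ Et (Can l) D :=
  AddMonoidHom.mk' (fun a => AddMonoidHom.mk' (fun b => Et.L (Can l) D a * Et.R (Can l) D (op b))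
    fun b b' => by rw [op_add, map_add, mul_add])
    fun a a' => AddMonoidHom.ext fun b => by
      change Et.L (Can l) D (a + a') * _ = _
      rw [map_add, add_mul]; rfl

lemma etH_apply (D : Derivation ℤ K K) (a b : CB l) :
    etH l D a b = Et.L (Can l) D a * Et.R (Can l) D (op b) := rfl

lemma etH_mul (D : Derivation ℤ K K) (a b a' b' : CB l) :
    etH l D a b * etH l D a' b' = etH l D (a * a') (b' * b) := by
  rw [etH_apply, etH_apply, etH_apply, (Et.commute _ _).symm.mul_mul_mul_comm, ← map_mul,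
    ← map_mul, op_mul]

lemma etH_smul (D : Derivation ℤ K K) (c : K) (a b : CB l) :
    etH l D a (c • b) + etH l D (c • a) b =
      Et.eps (Can l) D (em K (Can l) (Can l) a (D c • b)) := by
  have h := etH_mul l D a b 1 (algebraMap K _ c)
  have h' := etH_mul l D a b (algebraMap K _ c) 1
  rw [mul_one, ← Algebra.smul_def] at h
  rw [one_mul, ← Algebra.commutes, ← Algebra.smul_def] at h'
  rw [← h, ← h', ← mul_add, etH_apply l D 1, etH_apply l D _ 1, map_one, one_mul, op_one, map_one,
    mul_one, Et.R_alg, add_right_comm, Et.two, zero_add, Et.mul_eps, etH_apply, Et.pr_LR,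
    ← Algebra.commutes, ← Algebra.smul_def, em_smul]
  rfl

/-- The lift of the bar differential along a derivation. -/
def barLift (D : Derivation ℤ K K) (c : K) (t : ι → τ → K) (h : ∀ i j, D (l i j) = c * t i j) :
    Lift D (bar l) (c • kap l t) where
  δ := dl (etH l D)
  pr g k := dl_map (etH l D) (Et.pr (Can l) D).toAddMonoidHom (m' := emH l)
    (fun a b => Et.pr_LR (A := Can l) (D := D) a (op b)) g k
  l g k := (dl_cor (etH l D) (etH_mul l D) g k).1
  r g k := (dl_cor (etH l D) (etH_mul l D) g k).2.1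
  deg g k e := (dl_cor (etH l D) (etH_mul l D) g k).2.2 fun e' => e (by dsimp only; omega)
  sq := by
    rw [dl_sq (etH l D) (etH_mul l D) Et.two]
    ext g k
    rw [Matrix.map_apply, Fr.mat, Pi.smul_apply, map_smul, Pi.smul_apply]
    cases g
    case P i =>
      simp only [dsq, kap, etH_smul, ← map_sum, h, mul_smul]
      rw [← em_sum, ← Finset.smul_sum, aT_sum, em_smul, Fr.val_r, Fr.val_gen]
      by_cases e : k = .o .w
      · subst e
        rw [Pi.single_eq_same, if_pos rfl, tm_eq_em, env_e', em_mul, one_mul]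
        exact congrArg (fun b => Et.eps (Can l) D (c • em K (Can l) (Can l) _ b)) (ew_aT l _).symm
      · rw [Pi.single_eq_of_ne e, if_neg e, mul_zero, smul_zero, map_zero]
    all_goals simp [dsq, kap]

end FMD.H14
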